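import Pool.Agent.W5h77.Sg2.Core2

/-!
The sets attached to the ordinals and the colouring.
-/

namespace Pool.Agent.W5h77.Sg2

universe u v w

open Set Cardinal Ordinal Pool.Agent.W5h77.Sg

section

variable {lam : Cardinal.{u}} {M : Type u} [LinearOrder M] [WellFoundedLT M]
  {Λ : M → lam.ord.ToType} {S : Pieces (NS M) (fun i => Iio (Λ i)) lam.ord.ToType}
  {pt : lam.ord.ToType ≃ Σ i, Iio (Λ i)} {φ : ∀ i, lam.ord.ToType → Set (Iio (Λ i))}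
  {decK : lam.ord.ToType → lam.ord.ToType × Bool}
  {decS : lam.ord.ToType → Set (Set M)} {decT : lam.ord.ToType → Set M}
  {t : lam.ord.ToType}

/-- The set attached to `β`. -/
def GG2 (S : Pieces (NS M) (fun i => Iio (Λ i)) lam.ord.ToType)
    (pt : lam.ord.ToType ≃ Σ i, Iio (Λ i)) (φ : ∀ i, lam.ord.ToType → Set (Iio (Λ i)))
    (decK : lam.ord.ToType → lam.ord.ToType × Bool) (t : lam.ord.ToType)
    (β : Ordinal.{u}) : Set lam.ord.ToType :=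
  {z | ∃ c r, IsCert S pt t β c r ∧ InG2 S φ (cc pt c) r β (decK z)}

theorem mem_GG2 (hM : RegIdx M) (ht : S.dom t = Set.univ) {β : Ordinal.{u}}
    {c : lam.ord.ToType → lam.ord.ToType} {r : lam.ord.ToType → Ordinal.{u}}
    (h : IsCert S pt t β c r) (z : lam.ord.ToType) :
    z ∈ GG2 S pt φ decK t β ↔ InG2 S φ (cc pt c) r β (decK z) := by
  constructor
  · rintro ⟨c', r', h', h1⟩
    exact inG2_transfer (NS.sideal hM) h'.1 h'.2.1 h.1 h.2.1 ht h.2.2.2 h1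
  · intro h1
    exact ⟨c, r, h, h1⟩

theorem isCert_mono {β β' : Ordinal.{u}} {c : lam.ord.ToType → lam.ord.ToType}
    {r : lam.ord.ToType → Ordinal.{u}} (h : IsCert S pt t β c r) (hb : β' ≤ β) :
    IsCert S pt t β' c r := ⟨h.1, h.2.1, h.2.2.1, hb.trans_lt h.2.2.2⟩

theorem GG2_inj (hM : RegIdx M) (hlam : ℵ₀ ≤ lam) (hΛ : Cofn Λ)
    (hinf : ∀ i, ℵ₀ ≤ #(Iio (Λ i))) (ht : S.dom t = Set.univ)
    (ht2 : ∀ i, S.val t i = hΛ.dflt i)
    (hφ : ∀ i, ∀ v ∈ Vs (Λ i), ∀ w ∈ Vs (Λ i), φ i v = φ i w → v = w)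
    (hK : Function.Surjective decK) {α β : Ordinal.{u}} (hα : α < (Order.succ lam).ord)
    (hβ : β < (Order.succ lam).ord) (hne : α ≠ β) (hn : (GG2 S pt φ decK t α).Nonempty) :
    GG2 S pt φ decK t α ≠ GG2 S pt φ decK t β := by
  intro hab
  obtain ⟨c, r, hc⟩ := exists_cert (pt := pt) hM hlam hΛ hinf ht ht2 (max α β) (max_lt hα hβ)
  have h1 : IsCert S pt t α c r := isCert_mono hc (le_max_left _ _)
  have h2 : IsCert S pt t β c r := isCert_mono hc (le_max_right _ _)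
  have hI := NS.sideal hM
  obtain ⟨z, hz⟩ := hn
  rw [mem_GG2 hM ht h1] at hz
  obtain ⟨ξ, _, h3, _⟩ := hz
  rw [good_iff2 hI h1.1 h1.2.1] at h3
  refine inG2_inj hI h1.1 h1.2.1 (φ := φ) ?_ ξ h3 hne ?_
  · intro i q q' h3
    exact hφ i _ (DC.mem_Vs hc.1 i q) _ (DC.mem_Vs hc.1 i q') h3
  · intro k hk
    obtain ⟨z, rfl⟩ := hK k
    rw [← mem_GG2 hM ht h2]
    rw [← hab, mem_GG2 hM ht h1]
    exact hk

theorem GG2_nonempty (hM : RegIdx M) (hlam : ℵ₀ ≤ lam) (hΛ : Cofn Λ)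
    (hinf : ∀ i, ℵ₀ ≤ #(Iio (Λ i))) (ht : S.dom t = Set.univ)
    (ht2 : ∀ i, S.val t i = hΛ.dflt i) (hMM : #(Set M) ≤ lam)
    (hK : Function.Surjective decK) {γ : Ordinal.{u}} (hγ : γ < (Order.succ lam).ord) :
    ∃ δ, γ ≤ δ ∧ δ < (Order.succ lam).ord ∧ (GG2 S pt φ decK t δ).Nonempty := by
  have hcard : #(lam.ord.ToType) = lam := mk_ord_toType lam
  have hI := NS.sideal hM
  obtain ⟨f, δ, h1, h2, h3, h4⟩ := exists_stable (L := lam.ord.ToType) hM hΛ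
    (fun l => by rw [hcard]; exact mk_Iio_toType_ord_lt l) hinf S ht ht2 le_rfl
    (by rwa [hcard]) (by rwa [hcard]) γ (by rwa [hcard])
  rw [hcard] at h3
  refine ⟨δ, h2, h3, ?_⟩
  obtain ⟨c, r, hc⟩ := exists_cert (pt := pt) hM hlam hΛ hinf ht ht2 δ h3
  have h5 : δ < nrm (NS M) Set.univ (fn S (cc pt c) t) := by
    have := hc.2.2.2
    rwa [rec_unique hI hc.1 hc.2.1 t, ht] at this
  obtain ⟨ξ, _, h6⟩ := exists_code_below (S := S) hI hc.1 f (NS.univ_notMem hM)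
    (S.val t) (fun Z _ hZ => h4 Z hZ) h5
  obtain ⟨k, hk⟩ := inG2_nonempty (φ := φ) (β := δ) hI hc.1 hc.2.1 ξ (by
    intro Z hZ hZI
    rw [← h4 Z hZI]
    refine nrm_congr hI hZI ?_
    intro i hi
    exact h6 i (hZ hi))
  obtain ⟨z, rfl⟩ := hK k
  exact ⟨z, (mem_GG2 hM ht hc z).2 hk⟩

open Classical in
/-- The next ordinal with a nonempty set of codes. -/
noncomputable def nx (S : Pieces (NS M) (fun i => Iio (Λ i)) lam.ord.ToType)
    (pt : lam.ord.ToType ≃ Σ i, Iio (Λ i)) (φ : ∀ i, lam.ord.ToType → Set (Iio (Λ i)))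
    (decK : lam.ord.ToType → lam.ord.ToType × Bool) (t : lam.ord.ToType)
    (α : Ordinal.{u}) : Ordinal.{u} :=
  sInf {γ | α ≤ γ ∧ (GG2 S pt φ decK t γ).Nonempty}

/-- The data needed for the colouring. -/
structure Dat (S : Pieces (NS M) (fun i => Iio (Λ i)) lam.ord.ToType)
    (pt : lam.ord.ToType ≃ Σ i, Iio (Λ i)) (φ : ∀ i, lam.ord.ToType → Set (Iio (Λ i)))
    (decK : lam.ord.ToType → lam.ord.ToType × Bool) (t : lam.ord.ToType) : Prop where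
  hM : RegIdx M
  hlam : ℵ₀ ≤ lam
  hΛ : Cofn Λ
  hinf : ∀ i, ℵ₀ ≤ #(Iio (Λ i))
  ht : S.dom t = Set.univ
  ht2 : ∀ i, S.val t i = hΛ.dflt i
  hMM : #(Set M) ≤ lam
  hK : Function.Surjective decK
  hφ : ∀ i, ∀ v ∈ Vs (Λ i), ∀ w ∈ Vs (Λ i), φ i v = φ i w → v = w

theorem Dat.nx_spec (h : Dat S pt φ decK t) {α : Ordinal.{u}} (hα : α < (Order.succ lam).ord) :
    α ≤ nx S pt φ decK t α ∧ nx S pt φ decK t α < (Order.succ lam).ord ∧
      (GG2 S pt φ decK t (nx S pt φ decK t α)).Nonempty ∧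
      ∀ γ, α ≤ γ → γ < nx S pt φ decK t α → ¬ (GG2 S pt φ decK t γ).Nonempty := by
  obtain ⟨δ, h1, h2, h3⟩ := GG2_nonempty (φ := φ) (pt := pt) h.hM h.hlam h.hΛ h.hinf h.ht h.ht2
    h.hMM h.hK hα
  have hne : {γ | α ≤ γ ∧ (GG2 S pt φ decK t γ).Nonempty}.Nonempty := ⟨δ, h1, h3⟩
  have h4 := csInf_mem hne
  refine ⟨h4.1, ?_, h4.2, ?_⟩
  · have h5 : nx S pt φ decK t α ≤ δ := csInf_le (OrderBot.bddBelow _) ⟨h1, h3⟩
    exact h5.trans_lt h2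
  · intro γ hγ hγ2 hn
    have h5 : nx S pt φ decK t α ≤ γ := csInf_le (OrderBot.bddBelow _) ⟨hγ, hn⟩
    exact absurd h5 (not_le.2 hγ2)

end

end Pool.Agent.W5h77.Sg2
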