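import Pool.Agent.W5h77.Sg2.Col2

/-!
The colouring is `Σ_1`-definable.
-/

namespace Pool.Agent.W5h77.Sg2

universe u v w

open Set Cardinal Ordinal Pool.Agent.W5h77.Sg

section

variable {lam : Cardinal.{u}} {M : Type u} [LinearOrder M] [WellFoundedLT M]
  {Λ : M → lam.ord.ToType} {S : Pieces (NS M) (fun i => Iio (Λ i)) lam.ord.ToType}
  {pt : lam.ord.ToType ≃ Σ i, Iio (Λ i)} {φ : ∀ i, lam.ord.ToType → Set (Iio (Λ i))}
  {decK : lam.ord.ToType → lam.ord.ToType × Bool}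
  {decS : lam.ord.ToType → Set (Set M)} {decT : lam.ord.ToType → Set M}
  {t : lam.ord.ToType}

theorem Dat.nextL_iff (h : Dat S pt φ decK t) {β β' : Ordinal.{u}}
    (hβ : β < (Order.succ lam).ord) {c : lam.ord.ToType → lam.ord.ToType}
    {r : lam.ord.ToType → Ordinal.{u}} (hc : IsCert S pt t β' c r) :
    NextL (rB1 S decK) (rB2 S) (rB3 S pt φ decK) (rA4 S pt) c r β β' ↔
      β' = nx S pt φ decK t β := by
  have h1 : ∀ γ ≤ β', ((∃ z, InGL (rB1 S decK) (rB2 S) (rB3 S pt φ decK) (rA4 S pt) c r γ z) ↔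
      (GG2 S pt φ decK t γ).Nonempty) := by
    intro γ hγ
    have h2 := isCert_mono hc hγ
    constructor
    · rintro ⟨z, hz⟩
      exact ⟨z, (mem_GG2 h.hM h.ht h2 z).2 ((inGL_iff2 z).1 hz)⟩
    · rintro ⟨z, hz⟩
      exact ⟨z, (inGL_iff2 z).2 ((mem_GG2 h.hM h.ht h2 z).1 hz)⟩
  obtain ⟨n1, n2, n3, n4⟩ := h.nx_spec hβ
  unfold NextL
  constructor
  · rintro ⟨h2, h3, h4⟩
    rw [h1 β' le_rfl] at h3
    apply le_antisymm
    · by_contra hcon
      rw [not_le] at hcon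
      obtain ⟨z, hz⟩ := (h1 _ hcon.le).2 n3
      exact h4 _ hcon n1 z hz
    · by_contra hcon
      rw [not_le] at hcon
      exact n4 β' h2 hcon h3
  · rintro rfl
    refine ⟨n1, (h1 _ le_rfl).2 n3, ?_⟩
    intro γ hγ h2 z hz
    exact n4 γ h2 hγ ((h1 γ hγ.le).1 ⟨z, hz⟩)

open Classical in
/-- The colouring. -/
noncomputable def col2 (S : Pieces (NS M) (fun i => Iio (Λ i)) lam.ord.ToType)
    (pt : lam.ord.ToType ≃ Σ i, Iio (Λ i)) (φ : ∀ i, lam.ord.ToType → Set (Iio (Λ i)))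
    (decK : lam.ord.ToType → lam.ord.ToType × Bool) (t : lam.ord.ToType)
    (α β : Ordinal.{u}) : ZFSet.{u} :=
  if LexLt (GG2 S pt φ decK t (nx S pt φ decK t α)) (GG2 S pt φ decK t (nx S pt φ decK t β))
  then {∅} else ∅

omit [WellFoundedLT M] in
theorem col2_or (α β : Ordinal.{u}) :
    col2 S pt φ decK t α β = ∅ ∨ col2 S pt φ decK t α β = {∅} := by
  unfold col2
  split_ifs
  · exact Or.inr rfl
  · exact Or.inl rfl

omit [WellFoundedLT M] in
theorem col2_eq_one (α β : Ordinal.{u}) : col2 S pt φ decK t α β = {∅} ↔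
    LexLt (GG2 S pt φ decK t (nx S pt φ decK t α)) (GG2 S pt φ decK t (nx S pt φ decK t β)) := by
  unfold col2
  split_ifs with h
  · simp [h]
  · simp only [h, iff_false]
    intro h1
    have h2 : (∅ : ZFSet.{u}) ∈ ({∅} : ZFSet.{u}) := by simp
    rw [← h1] at h2
    exact ZFSet.notMem_empty _ h2

theorem Dat.colL_iff (h : Dat S pt φ decK t) (hS : ∀ X C, Cover (NS M) X C → ∃ s, decS s = C)
    (hT : Function.Surjective decT) {α β : Ordinal.{u}}
    (hab : α < β) (hβ : β < (Order.succ lam).ord) (y : ZFSet.{u}) :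
    (∃ c r, ColL2 (rB1 S decK) (rB2 S) (rB3 S pt φ decK) (rA4 S pt) (rA5 pt) (rA6 S decS)
      (rA7 decS decT) (rA8 S decT) c r (Order.succ lam) t α β y) ↔
      y = col2 S pt φ decK t α β := by
  have hα := hab.trans hβ
  obtain ⟨n1, n2, n3, n4⟩ := h.nx_spec hβ
  obtain ⟨m1, m2, m3, m4⟩ := h.nx_spec hα
  have hnn : nx S pt φ decK t α ≤ nx S pt φ decK t β := by
    by_contra hcon
    rw [not_le] at hcon
    exact m4 _ (hab.le.trans n1) hcon n3
  have key : ∀ c r, IsCert S pt t (nx S pt φ decK t β) c r →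
      ((y = {∅} ∧ LexLt {z | InGL (rB1 S decK) (rB2 S) (rB3 S pt φ decK) (rA4 S pt) c r
          (nx S pt φ decK t α) z}
        {z | InGL (rB1 S decK) (rB2 S) (rB3 S pt φ decK) (rA4 S pt) c r
          (nx S pt φ decK t β) z}) ∨
      (y = ∅ ∧ ¬ LexLt {z | InGL (rB1 S decK) (rB2 S) (rB3 S pt φ decK) (rA4 S pt) c r
          (nx S pt φ decK t α) z}
        {z | InGL (rB1 S decK) (rB2 S) (rB3 S pt φ decK) (rA4 S pt) c r
          (nx S pt φ decK t β) z}) ↔
      y = col2 S pt φ decK t α β) := by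
    intro c r hc
    have h1 : IsCert S pt t (nx S pt φ decK t α) c r := isCert_mono hc hnn
    have h2 : {z | InGL (rB1 S decK) (rB2 S) (rB3 S pt φ decK) (rA4 S pt) c r
        (nx S pt φ decK t α) z} = GG2 S pt φ decK t (nx S pt φ decK t α) := by
      ext z
      rw [mem_ofPred_eq, inGL_iff2, mem_GG2 h.hM h.ht h1]
    have h3 : {z | InGL (rB1 S decK) (rB2 S) (rB3 S pt φ decK) (rA4 S pt) c r
        (nx S pt φ decK t β) z} = GG2 S pt φ decK t (nx S pt φ decK t β) := by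
      ext z
      rw [mem_ofPred_eq, inGL_iff2, mem_GG2 h.hM h.ht hc]
    rw [h2, h3]
    unfold col2
    split_ifs with h4
    · simp [h4]
    · simp [h4]
  constructor
  · rintro ⟨c, r, h1, h2, h3, α', hα', β', hβ', h4, h5, h6, h7⟩
    rw [dc_iff] at h1
    rw [recL_iff2 hS hT] at h2
    have hcb : IsCert S pt t β' c r := ⟨h1, h2, h3, h6⟩
    have hle : α' ≤ β' := by
      by_contra hcon
      rw [not_le] at hcon
      obtain ⟨z, hz⟩ := h5.2.1
      exact h4.2.2 β' hcon (hab.le.trans h5.1) z hz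
    have hca : IsCert S pt t α' c r := isCert_mono hcb hle
    rw [h.nextL_iff hβ hcb] at h5
    rw [h.nextL_iff hα hca] at h4
    rw [h4, h5] at h7
    rw [h5] at hcb
    exact (key c r hcb).1 h7
  · intro hy
    obtain ⟨c, r, hc⟩ := exists_cert (pt := pt) h.hM h.hlam h.hΛ h.hinf h.ht h.ht2 _ n2
    refine ⟨c, r, dc_iff.2 hc.1, (recL_iff2 hS hT).2 hc.2.1, hc.2.2.1, _, m2, _, n2, ?_, ?_,
      hc.2.2.2, ?_⟩
    · rw [h.nextL_iff hα (isCert_mono hc hnn)]
    · rw [h.nextL_iff hβ hc]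
    · exact (key c r hc).2 hy

theorem Dat.avoid (h : Dat S pt φ decK t) {α : Ordinal.{u}} (hα : α < (Order.succ lam).ord) :
    ∃ γ < (Order.succ lam).ord, ∀ β < (Order.succ lam).ord, γ < β →
      GG2 S pt φ decK t (nx S pt φ decK t α) ≠ GG2 S pt φ decK t (nx S pt φ decK t β) := by
  obtain ⟨m1, m2, m3, m4⟩ := h.nx_spec hα
  refine ⟨_, m2, ?_⟩
  intro β hβ hlt
  obtain ⟨n1, n2, n3, n4⟩ := h.nx_spec hβ
  exact GG2_inj h.hM h.hlam h.hΛ h.hinf h.ht h.ht2 h.hφ h.hK m2 n2 (hlt.trans_le n1).ne m3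

end

end Pool.Agent.W5h77.Sg2
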