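import Pool.Agent.W5h77.Sg2.Sem2

/-!
The second `Σ_1`-formula.
-/

namespace Pool.Agent.W5h77.Sg2

universe u

open Cardinal Ordinal Set Pool.Agent.W5h77.Sg

/-- The `Σ_1`-formula. -/
theorem exists_sig1b : ∃ φ : Sig 1 (4 + 12), ∀ (α β : Ordinal.{u}) (y : ZFSet.{u})
    (κ : Cardinal.{u}) (z : Fin 12 → ZFSet.{u}), Sig.Sat 1 φ (env α β y κ z) ↔
      ∃ C R, Psi2 (z 0) κ.ord.toZFSet (z 1) (z 2) (z 3) (z 4) (z 5) (z 6) (z 7) (z 8) (z 9) (z 10)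
        (z 11) α.toZFSet β.toZFSet y C R := by
  have h1 : D0 (fun w : Fin (4 + 12 + 1) → ZFSet.{u} => ∃ C ∈ w (Fin.last (4 + 12)),
      ∃ R ∈ w (Fin.last (4 + 12)), Psi2 ((Fin.init w : Fin (4 + 12) → ZFSet.{u}) (Fin.natAdd 4 0))
        ((Fin.init w : Fin (4 + 12) → ZFSet.{u}) (Fin.castAdd 12 3))
        ((Fin.init w : Fin (4 + 12) → ZFSet.{u}) (Fin.natAdd 4 1))
        ((Fin.init w : Fin (4 + 12) → ZFSet.{u}) (Fin.natAdd 4 2))
        ((Fin.init w : Fin (4 + 12) → ZFSet.{u}) (Fin.natAdd 4 3))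
        ((Fin.init w : Fin (4 + 12) → ZFSet.{u}) (Fin.natAdd 4 4))
        ((Fin.init w : Fin (4 + 12) → ZFSet.{u}) (Fin.natAdd 4 5))
        ((Fin.init w : Fin (4 + 12) → ZFSet.{u}) (Fin.natAdd 4 6))
        ((Fin.init w : Fin (4 + 12) → ZFSet.{u}) (Fin.natAdd 4 7))
        ((Fin.init w : Fin (4 + 12) → ZFSet.{u}) (Fin.natAdd 4 8))
        ((Fin.init w : Fin (4 + 12) → ZFSet.{u}) (Fin.natAdd 4 9))
        ((Fin.init w : Fin (4 + 12) → ZFSet.{u}) (Fin.natAdd 4 10))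
        ((Fin.init w : Fin (4 + 12) → ZFSet.{u}) (Fin.natAdd 4 11))
        ((Fin.init w : Fin (4 + 12) → ZFSet.{u}) (Fin.castAdd 12 0))
        ((Fin.init w : Fin (4 + 12) → ZFSet.{u}) (Fin.castAdd 12 1))
        ((Fin.init w : Fin (4 + 12) → ZFSet.{u}) (Fin.castAdd 12 2)) C R) := by
    have hp : ∀ i : Fin (4 + 12), IsVar (fun w : Fin (4 + 12 + 1 + 1 + 1) → ZFSet.{u} =>
        (Fin.init (Fin.init (Fin.init w)) : Fin (4 + 12) → ZFSet.{u}) i) :=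
      fun i => (IsVar.proj i).init.init.init
    refine D0.bex .last ?_
    refine D0.bex (IsVar.init .last) ?_
    exact D0.psi2 (hp _) (hp _) (hp _) (hp _) (hp _) (hp _) (hp _) (hp _) (hp _) (hp _) (hp _)
      (hp _) (hp _) (hp _) (hp _) (hp _) (IsVar.init .last) .last
  obtain ⟨ψ, hψ⟩ := h1
  refine ⟨.neg ψ, ?_⟩
  intro α β y κ z
  have h2 : Sig.Sat 1 (.neg ψ : Fml0 (4 + 12 + 1)) (env α β y κ z) ↔
      ∃ x : ZFSet.{u}, ψ.Sat (Fin.snoc (α := fun _ => ZFSet.{u}) (env α β y κ z) x) := by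
    simp only [Sig.Sat, Fml0.Sat, not_not]
  rw [h2]
  simp only [hψ, Fin.init_snoc, Fin.snoc_last, env, Fin.append_left, Fin.append_right]
  constructor
  · rintro ⟨x, C, _, R, _, h⟩
    exact ⟨C, R, h⟩
  · rintro ⟨C, R, h⟩
    exact ⟨{C, R}, C, by simp, R, by simp, h⟩

end Pool.Agent.W5h77.Sg2
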