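import Pool.Agent.W5h77.Sg2.Inj2

/-!
The map from ordinals to sets of codes is injective where it is nonempty.
-/

namespace Pool.Agent.W5h77.Sg2

universe u v w

open Set Cardinal Ordinal Pool.Agent.W5h77.Sg

variable {M V : Type u} [LinearOrder V] {I : Set (Set M)} {Q : M → Type u} {D : Type w}
variable [WellFoundedLT V] {S : Pieces I Q D} {φ : ∀ i, V → Set (Q i)}
  {c c' : ∀ i, Q i → V} {r r' : D → Ordinal.{u}} {β β' : Ordinal.{u}}

open Classical in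
theorem inG2_inj (hI : SIdeal I) (hc : DC c) (hr : Rec S c r)
    (hφ : ∀ i q q', φ i (c i q) = φ i (c i q') → c i q = c i q') (ξ0 : D)
    (h0 : ∀ Z, Z ⊆ S.dom ξ0 → Z ∉ I → nrm I Z (fn S c ξ0) = β)
    (hne : β ≠ β') (heq : ∀ k, InG2 S φ c r β k → InG2 S φ c r β' k) : False := by
  have hJ : ClosedJ I I := closedJ_self
  set f := fn S c ξ0 with hf
  set Y := S.dom ξ0 with hYdef
  have hYJ : Y ∉ I := S.pos ξ0
  have h2 : ∀ i, c i (S.val ξ0 i) = f i := fun _ => rfl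
  -- a criterion for `InG β`
  have key : ∀ (T : Set M) (θ : ∀ i, Q i) (s : Bool), T ⊆ Y → T ∉ I →
      (∀ i ∈ T, (θ i ∈ φ i (f i) ↔ s = true)) →
      ∃ d, S.dom d ⊆ T ∧ (∀ i ∈ S.dom d, S.val d i = θ i) ∧
        InG2 S φ c r β (d, s) := by
    intro T θ s hTY hTJ hs
    obtain ⟨d, h3, h4, h5⟩ := hJ.piece S hTJ θ
    refine ⟨d, h3, h5, ?_⟩
    obtain ⟨ξ1, h6, h7⟩ := S.restr ξ0 (S.dom d) (h3.trans hTY) (S.pos d)
    have h8 : ∀ i ∈ S.dom d, c i (S.val ξ1 i) = f i := by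
      intro i hi
      rw [h7 i hi, h2]
    refine ⟨ξ1, by rw [h6], ?_, ?_⟩
    · rw [good_iff2 hI hc hr]
      intro Z hZ hZJ
      rw [h6] at hZ
      rw [← h0 Z (hZ.trans (h3.trans hTY)) hZJ]
      refine nrm_congr hI hZJ ?_
      intro i hi
      exact h8 i (hZ hi)
    · intro i hi
      rw [h6] at hi
      change S.val d i ∈ φ i (c i (S.val ξ1 i)) ↔ s = true
      rw [h8 i hi, h5 i hi]
      exact hs i (h3 hi)
  -- first step
  have step1 : ∃ ξ2, S.dom ξ2 ⊆ Y ∧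
      ∀ Z, Z ⊆ S.dom ξ2 → Z ∉ I → nrm I Z (fn S c ξ2) = β' := by
    let θ := S.val ξ0
    let A : Set M := {i | i ∈ Y ∧ θ i ∈ φ i (f i)}
    let B : Set M := {i | i ∈ Y ∧ ¬ θ i ∈ φ i (f i)}
    have h3 : ∃ T s, T ⊆ Y ∧ T ∉ I ∧ (∀ i ∈ T, (θ i ∈ φ i (f i) ↔ s = true)) := by
      rcases hJ.split hI (A := A) (B := B) hYJ (by
        ext i
        simp only [A, B, mem_union, mem_ofPred_eq]
        tauto) (fun i hi hi' => hi'.2 hi.2) with h3 | h3
      · exact ⟨A, true, fun i hi => hi.1, h3, fun i hi => by simp [hi.2]⟩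
      · exact ⟨B, false, fun i hi => hi.1, h3, fun i hi => by simp [hi.2]⟩
    obtain ⟨T, s, h4, h5, h6⟩ := h3
    obtain ⟨d, h7, h9, h10⟩ := key T θ s h4 h5 h6
    obtain ⟨ξ2, h11, h13, h14⟩ := heq _ h10
    refine ⟨ξ2, h11.trans (h7.trans h4), ?_⟩
    rwa [good_iff2 hI hc hr] at h13
  obtain ⟨ξ2, h3, h5⟩ := step1
  have h4 : S.dom ξ2 ∉ I := S.pos ξ2
  let f' := fn S c ξ2
  let E : Set M := {i | i ∈ S.dom ξ2 ∧ f i = f' i}
  let T2 : Set M := {i | i ∈ S.dom ξ2 ∧ ¬ f i = f' i}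
  have hE : E ∈ I := by
    by_contra hE
    have h6 := h5 E (fun i hi => hi.1) hE
    have h7 := h0 E (fun i hi => h3 hi.1) hE
    have h8 : nrm I E f = nrm I E f' := nrm_congr hI hE (fun i hi => hi.2)
    exact hne (by rw [← h7, h8]; exact h6)
  have hT2 : T2 ∉ I := by
    rcases hJ.split hI (A := E) (B := T2) h4 (by
      ext i
      simp only [E, T2, mem_union, mem_ofPred_eq]
      tauto) (fun i hi hi' => hi'.2 hi.2) with h6 | h6
    · exact absurd hE h6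
    · exact h6
  have h6 : ∀ i, ∃ q : Q i, i ∈ T2 → ¬ (q ∈ φ i (f i) ↔ q ∈ φ i (f' i)) := by
    intro i
    by_cases hi : i ∈ T2
    · have h7 : f i = c i (S.val ξ0 i) := (h2 i).symm
      have h8 : φ i (f i) ≠ φ i (f' i) := by
        intro h9
        apply hi.2
        rw [h7] at h9 ⊢
        exact hφ i _ _ h9
      by_contra hcon
      push Not at hcon
      apply h8
      ext q
      exact (hcon q).2
    · exact ⟨S.val ξ0 i, fun h => absurd h hi⟩
  choose θ hθ using h6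
  have h7 : ∃ T s, T ⊆ T2 ∧ T ∉ I ∧ (∀ i ∈ T, (θ i ∈ φ i (f i) ↔ s = true)) := by
    let A : Set M := {i | i ∈ T2 ∧ θ i ∈ φ i (f i)}
    let B : Set M := {i | i ∈ T2 ∧ ¬ θ i ∈ φ i (f i)}
    rcases hJ.split hI (A := A) (B := B) hT2 (by
      ext i
      simp only [A, B, mem_union, mem_ofPred_eq]
      tauto) (fun i hi hi' => hi'.2 hi.2) with h3 | h3
    · exact ⟨A, true, fun i hi => hi.1, h3, fun i hi => by simp [hi.2]⟩
    · exact ⟨B, false, fun i hi => hi.1, h3, fun i hi => by simp [hi.2]⟩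
  obtain ⟨T, s, h8, h9, h10⟩ := h7
  obtain ⟨d, h11, h13, h14⟩ := key T θ s (fun i hi => h3 (h8 hi).1) h9 h10
  obtain ⟨ξ4, h15, h17, h18⟩ := heq _ h14
  have h16 : S.dom ξ4 ∉ I := S.pos ξ4
  rw [good_iff2 hI hc hr] at h17
  let f'' := fn S c ξ4
  have h19 : ∀ i ∈ S.dom ξ4, f'' i ≠ f' i := by
    intro i hi h20
    have h21 := h18 i hi
    change S.val d i ∈ φ i (f'' i) ↔ s = true at h21
    have h22 : i ∈ T := h11 (h15 hi)
    rw [h13 i (h15 hi), h20, ← h10 i h22] at h21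
    exact hθ i (h8 h22) h21.symm
  have h20 : S.dom ξ4 ⊆ S.dom ξ2 := fun i hi => (h8 (h11 (h15 hi))).1
  let Z1 : Set M := {i | i ∈ S.dom ξ4 ∧ f'' i < f' i}
  let Z2 : Set M := {i | i ∈ S.dom ξ4 ∧ f' i < f'' i}
  rcases hJ.split hI (A := Z1) (B := Z2) h16 (by
    ext i
    simp only [Z1, Z2, mem_union, mem_ofPred_eq]
    constructor
    · intro hi
      rcases lt_or_gt_of_ne (h19 i hi) with h | h
      · exact Or.inl ⟨hi, h⟩
      · exact Or.inr ⟨hi, h⟩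
    · rintro (h | h)
      · exact h.1
      · exact h.1) (fun i hi hi' => lt_asymm hi.2 hi'.2) with h21 | h21
  · have h22 : Lt I Z1 f'' f' := by
      refine hI.mono ?_ hI.empty
      rintro i ⟨hi, hi'⟩
      exact absurd hi.2 hi'
    have h23 := nrm_lt_of_lt hI h21 h22
    rw [h5 Z1 (fun i hi => h20 hi.1) h21, h17 Z1 (fun i hi => hi.1) h21] at h23
    exact lt_irrefl _ h23
  · have h22 : Lt I Z2 f' f'' := by
      refine hI.mono ?_ hI.empty
      rintro i ⟨hi, hi'⟩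
      exact absurd hi.2 hi'
    have h23 := nrm_lt_of_lt hI h21 h22
    rw [h5 Z2 (fun i hi => h20 hi.1) h21, h17 Z2 (fun i hi => hi.1) h21] at h23
    exact lt_irrefl _ h23

end Pool.Agent.W5h77.Sg2
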