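import Pool.Agent.W5h77.Sg.Setup
import Pool.Agent.W5h77.Sg2.InjB

/-!
Existence of functions with the same norm on all stationary sets.
-/

namespace Pool.Agent.W5h77.Sg2

universe u v w

open Set Cardinal Ordinal Pool.Agent.W5h77.Sg

variable {M L : Type u} [LinearOrder M] [WellFoundedLT M] [LinearOrder L] [WellFoundedLT L]
  {Λ : M → L}

theorem Vs_lub (hL : ∀ l : L, #(Iio l) < #L) {l : L} (hl : ℵ₀ ≤ #(Iio l)) {ι : Type u}
    (s : ι → L) (hs : ∀ x, s x ∈ Vs l) (hι : #ι ≤ #(Iio l)) :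
    ∃ v ∈ Vs l, (∀ x, s x < v) ∧ ∀ w < v, ∃ x, w ≤ s x := by
  obtain ⟨v0, h1, h2⟩ := Vs_sup hL hl s hs hι
  obtain ⟨v, hv1, hv2⟩ := (wellFounded_lt (α := L)).has_min {v | ∀ x, s x < v} ⟨v0, h2⟩
  refine ⟨v, ?_, hv1, ?_⟩
  · have h3 : v ≤ v0 := not_lt.1 (hv2 v0 h2)
    change #(Iio v) ≤ #(Iio l)
    exact (mk_le_mk_of_subset (Iio_subset_Iio h3)).trans h1
  · intro w hw
    by_contra hcon
    push Not at hcon
    exact hv2 w hcon hw

/-- Norms of functions with values in `Vs` are below the successor cardinal. -/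
theorem nrm_lt_of_Vs {D : Type u} (hM : RegIdx M) (hΛ : Cofn Λ)
    (hinf : ∀ i, ℵ₀ ≤ #(Iio (Λ i)))
    (S : Pieces (NS M) (fun i => Iio (Λ i)) D) {t : D} (ht : S.dom t = Set.univ)
    (ht2 : ∀ i, S.val t i = hΛ.dflt i) {κ : Cardinal.{u}} (hD : #D < κ) (f : M → L)
    (hf : ∀ i, f i ∈ Vs (Λ i)) (X : Set M) (hX : X ∉ NS M) : nrm (NS M) X f < κ.ord := by
  obtain ⟨c, hc1, hc2⟩ := exists_code hΛ hinf f hf
  have hI := NS.sideal hM
  obtain ⟨η, h1, h2⟩ := S.restr t X (by rw [ht]; exact subset_univ _) hX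
  have h3 := nrm_lt_ord (S := S) hI hc1 hD η
  rw [h1] at h3
  convert h3 using 1
  refine nrm_congr hI hX ?_
  intro i hi
  simp only [fn, h2 i hi, ht2 i, hc2 i]

theorem exists_stable {D : Type u} (hM : RegIdx M) (hΛ : Cofn Λ) (hL : ∀ l : L, #(Iio l) < #L)
    (hinf : ∀ i, ℵ₀ ≤ #(Iio (Λ i)))
    (S : Pieces (NS M) (fun i => Iio (Λ i)) D) {t : D} (ht : S.dom t = Set.univ)
    (ht2 : ∀ i, S.val t i = hΛ.dflt i) (hD : #D ≤ #L) (hMM : #(Set M) ≤ #L) (hLi : ℵ₀ ≤ #L)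
    (γ : Ordinal.{u}) (hγ : γ < (Order.succ #L).ord) :
    ∃ (f : M → L) (δ : Ordinal.{u}), (∀ i, f i ∈ Vs (Λ i)) ∧ γ ≤ δ ∧ δ < (Order.succ #L).ord ∧
      ∀ X, X ∉ NS M → nrm (NS M) X f = δ := by
  set κ := Order.succ #L with hκdef
  have hI := NS.sideal hM
  have hκ : κ.IsRegular := isRegular_succ hLi
  have hu := NS.univ_notMem hM
  have step : ∀ γ : Iio κ.ord, ∃ (f : M → L) (γ' : Iio κ.ord), (∀ i, f i ∈ Vs (Λ i)) ∧
      Ge (NS M) Set.univ γ.1 f ∧ γ.1 < γ'.1 ∧ ∀ X, X ∉ NS M → nrm (NS M) X f < γ'.1 := by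
    rintro ⟨γ, hγ⟩
    obtain ⟨f, hf1, hf2⟩ := exists_ge hM hΛ hL hinf γ hγ
    have h1 : ∀ X, X ∉ NS M → nrm (NS M) X f < κ.ord := fun X hX =>
      nrm_lt_of_Vs hM hΛ hinf S ht ht2 (Order.lt_succ_iff.2 hD) f hf1 X hX
    let N : {X : Set M // X ∉ NS M} → Ordinal.{u} := fun X => nrm (NS M) X.1 f
    have h2 : (⨆ X, N X) < κ.ord := by
      refine iSup_lt_ord_of_isRegular hκ ?_ (fun X => h1 X.1 X.2)
      exact ((mk_subtype_le _).trans hMM).trans_lt (Order.lt_succ _)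
    have h3 : Order.succ (max γ (⨆ X, N X)) < κ.ord :=
      (isSuccLimit_ord hκ.aleph0_le).succ_lt (max_lt hγ h2)
    refine ⟨f, ⟨_, h3⟩, hf1, hf2, ?_, ?_⟩
    · exact Order.lt_succ_iff.2 (le_max_left _ _)
    · intro X hX
      refine Order.lt_succ_iff.2 (le_trans ?_ (le_max_right _ _))
      exact Ordinal.le_iSup N ⟨X, hX⟩
  choose F G hF1 hF2 hF3 hF4 using step
  let s : ℕ → Iio κ.ord := fun n => G^[n] ⟨γ, hγ⟩
  have hs : ∀ n, s (n + 1) = G (s n) := fun n => Function.iterate_succ_apply' _ _ _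
  let fs : ULift.{u} ℕ → M → L := fun n => F (s n.down)
  have h1 : ∀ i, ∃ v ∈ Vs (Λ i), (∀ x, fs x i < v) ∧ ∀ w < v, ∃ x, w ≤ fs x i := by
    intro i
    refine Vs_lub hL (hinf i) (fun x => fs x i) (fun x => hF1 _ i) ?_
    rw [mk_uLift, mk_nat, lift_aleph0]
    exact hinf i
  choose f hf1 hf2 hf3 using h1
  let δ : Ordinal.{u} := ⨆ n : ULift.{u} ℕ, (s n.down).1
  have hle : ∀ n, (s n).1 ≤ δ := fun n => Ordinal.le_iSup (fun n : ULift.{u} ℕ => (s n.down).1) ⟨n⟩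
  have hδ : δ < κ.ord := by
    refine iSup_lt_ord_of_isRegular hκ ?_ (fun n => (s n.down).2)
    rw [mk_uLift, mk_nat, lift_aleph0]
    exact hLi.trans_lt (Order.lt_succ _)
  refine ⟨f, δ, hf1, hle 0, hδ, ?_⟩
  intro X hX
  apply le_antisymm
  · by_contra hcon
    rw [not_le] at hcon
    obtain ⟨g, hg1, hg2⟩ := exists_nrm_eq hI hX hcon
    have h2 : ∃ n : ℕ, {i | i ∈ X ∧ g i ≤ fs ⟨n⟩ i} ∉ NS M := by
      by_contra hcon2
      push Not at hcon2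
      apply hX
      refine hI.mono ?_ (hI.union (hI.iUnion _ hcon2) hg1)
      intro i hi
      by_cases h3 : g i < f i
      · obtain ⟨⟨n⟩, hn⟩ := hf3 i _ h3
        exact Or.inl (mem_iUnion.2 ⟨n, hi, hn⟩)
      · exact Or.inr ⟨hi, h3⟩
    obtain ⟨n, hn⟩ := h2
    have h3 : nrm (NS M) X g ≤ nrm (NS M) {i | i ∈ X ∧ g i ≤ fs ⟨n⟩ i} g :=
      nrm_mono_set hI hn (fun i hi => hi.1)
    have h4 : nrm (NS M) {i | i ∈ X ∧ g i ≤ fs ⟨n⟩ i} g ≤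
        nrm (NS M) {i | i ∈ X ∧ g i ≤ fs ⟨n⟩ i} (fs ⟨n⟩) :=
      nrm_mono_fun hI hn (fun i hi => hi.2)
    have h5 := hF4 (s n) _ hn
    have h6 := (h3.trans h4).trans_lt h5
    rw [hg2, ← hs n] at h6
    exact absurd (hle (n + 1)) (not_le.2 h6)
  · refine Ordinal.iSup_le ?_
    rintro ⟨n⟩
    rw [le_nrm_iff hI hX]
    refine ge_mono_fun hI ?_ (ge_subset hI (subset_univ _) (hF2 (s n)))
    intro i _
    exact (hf2 i ⟨n⟩).le

end Pool.Agent.W5h77.Sg2
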