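import Pool.Agent.W5h77.Sg.Core
import Pool.Agent.W5h77.Sg2.Stab
import Pool.Agent.W5h77.Sg2.Form2

/-!
The colouring and its definition, with codes for the base ideal only.
-/

namespace Pool.Agent.W5h77.Sg2

universe u v w

open Set Cardinal Ordinal Pool.Agent.W5h77.Sg

section

variable {M L : Type u} [LinearOrder M] [WellFoundedLT M] [LinearOrder L] [WellFoundedLT L]
  {Λ : M → L} (S : Pieces (NS M) (fun i => Iio (Λ i)) L) (pt : L ≃ Σ i, Iio (Λ i))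
  (φ : ∀ i, L → Set (Iio (Λ i))) (decK : L → L × Bool) (decS : L → Set (Set M))
  (decT : L → Set M)

def rB1 (z x : L) : Prop := S.dom x ⊆ S.dom (decK z).1
def rB2 (_z x e : L) : Prop := S.dom e ⊆ S.dom x ∧ (∀ i ∈ S.dom e, S.val e i = S.val x i)
def rB3 (z p v : L) : Prop := (S.val (decK z).1 (pt p).1 ∈ φ (pt p).1 v ↔ (decK z).2 = true)

variable {S pt φ decK decS decT} {c : L → L} {r : L → Ordinal.{u}} {γ β : Ordinal.{u}}

omit [WellFoundedLT M] [WellFoundedLT L] in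
theorem rB3_symm (z : L) (i : M) (q : Iio (Λ i)) (v : L) :
    rB3 S pt φ decK z (pt.symm ⟨i, q⟩) v ↔
      (S.val (decK z).1 i ∈ φ i v ↔ (decK z).2 = true) := by
  have h : ∀ s : Σ i, Iio (Λ i), s = ⟨i, q⟩ →
      ((S.val (decK z).1 s.1 ∈ φ s.1 v ↔ (decK z).2 = true) ↔
        (S.val (decK z).1 i ∈ φ i v ↔ (decK z).2 = true)) := by
    rintro _ rfl; rfl
  exact h _ (pt.apply_symm_apply _)

omit [WellFoundedLT M] [WellFoundedLT L] in
theorem phi_iff2 (hS : ∀ X C, Cover (NS M) X C → ∃ s, decS s = C)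
    (hT : Function.Surjective decT) (x : L) :
    PhiL (rA4 S pt) (rA5 pt) (rA6 S decS) (rA7 decS decT) (rA8 S decT) c r γ x ↔
      Phi S (cc pt c) r γ x := by
  unfold PhiL Phi
  simp only [lt_iff]
  unfold rA6 rA7 rA8
  constructor
  · rintro ⟨s, h1, h2⟩
    refine ⟨decS s, h1, ?_⟩
    intro Y hY
    obtain ⟨t, rfl⟩ := hT Y
    obtain ⟨e, h3, h4, h5⟩ := h2 t hY
    refine ⟨e, h3, ?_, h5⟩
    intro i hi
    exact h4 i (by rwa [h3]) (h1.sub _ hY hi)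
  · rintro ⟨C, h1, h2⟩
    obtain ⟨s, rfl⟩ := hS _ C h1
    refine ⟨s, h1, ?_⟩
    intro t ht
    obtain ⟨e, h3, h4, h5⟩ := h2 _ ht
    refine ⟨e, h3, ?_, h5⟩
    intro i hi _
    exact h4 i (by rwa [← h3])

omit [WellFoundedLT M] [WellFoundedLT L] in
theorem recL_iff2 (hS : ∀ X C, Cover (NS M) X C → ∃ s, decS s = C)
    (hT : Function.Surjective decT) :
    RecL (rA4 S pt) (rA5 pt) (rA6 S decS) (rA7 decS decT) (rA8 S decT) c r ↔
      Rec S (cc pt c) r := by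
  unfold RecL Rec
  simp only [phi_iff2 hS hT]

omit [WellFoundedLT M] [WellFoundedLT L] in
theorem inGL_iff2 (z : L) :
    InGL (rB1 S decK) (rB2 S) (rB3 S pt φ decK) (rA4 S pt) c r β z ↔
      InG2 S φ (cc pt c) r β (decK z) := by
  unfold InGL InG2 rB1 rB2 cc
  constructor
  · rintro ⟨x, h1, h4, h5⟩
    refine ⟨x, h1, ?_, ?_⟩
    · intro η h6 h7
      exact h4 η ⟨h6, h7⟩
    · intro i hi
      have h6 := h5 (pt.symm ⟨i, S.val x i⟩) ((rA4_symm _ _ _).2 ⟨hi, rfl⟩)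
      rwa [rB3_symm] at h6
  · rintro ⟨x, h2, h4, h5⟩
    refine ⟨x, h2, ?_, ?_⟩
    · rintro e ⟨h6, h7⟩
      exact h4 e h6 h7
    · intro p h6
      obtain ⟨⟨i, p⟩, rfl⟩ := pt.symm.surjective p
      rw [rA4_symm] at h6
      rw [rB3_symm]
      obtain ⟨h7, rfl⟩ := h6
      exact h5 i h7

end

end Pool.Agent.W5h77.Sg2
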