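import Pool.Agent.W5h77.Sg2.Main2

/-!
Covering families: reduction to cardinals of cofinality `μ`.
-/

namespace Pool.Agent.W5h77.Sg2

universe u v w

open Set Cardinal Ordinal Pool.Agent.W5h77.Sg

/-- Covering families for functions between types. -/
def CovT (M N : Type u) (lam : Cardinal.{u}) : Prop :=
  ∃ H : Set (M → N), #H ≤ lam ∧ ∀ g : M → N, ∃ S : Set (M → N), S ⊆ H ∧ #S < #M ∧
    ∀ i, ∃ h ∈ S, h i = g i

theorem covT_iff {μ ν lam : Cardinal.{u}} :
    CovLe μ ν lam ↔ CovT μ.ord.ToType ν.ord.ToType lam := by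
  unfold CovLe CovT
  rw [mk_ord_toType]

theorem CovT.congr {M N N' : Type u} {lam : Cardinal.{u}} (e : N ≃ N') (h : CovT M N lam) :
    CovT M N' lam := by
  obtain ⟨H, h1, h2⟩ := h
  refine ⟨(fun f i => e (f i)) '' H, mk_image_le.trans h1, ?_⟩
  intro g
  obtain ⟨S, h3, h4, h5⟩ := h2 (fun i => e.symm (g i))
  refine ⟨(fun f i => e (f i)) '' S, image_mono h3, mk_image_le.trans_lt h4, ?_⟩
  intro i
  obtain ⟨f, hf1, hf2⟩ := h5 i
  exact ⟨_, ⟨f, hf1, rfl⟩, by simp [hf2]⟩

open Classical in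
/-- Gluing coverings along bounds. -/
theorem covT_of_bounds {M N : Type u} [LinearOrder N] {lam : Cardinal.{u}}
    (hM : (#M).IsRegular) (hlam : ℵ₀ ≤ lam) (hN : #N ≤ lam) (hb : ∀ b : N, CovT M (Iio b) lam)
    (hX : ∀ g : M → N, ∃ (X : Type u) (b : X → N), #X < #M ∧ ∀ i, ∃ x, g i < b x) :
    CovT M N lam := by
  choose H hH1 hH2 using hb
  refine ⟨⋃ b, (fun (f : M → Iio b) i => (f i : N)) '' H b, ?_, ?_⟩
  · refine (mk_iUnion_le _).trans ?_
    refine (mul_le_mul' hN (ciSup_le' fun b => mk_image_le.trans (hH1 b))).trans ?_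
    rw [mul_eq_self hlam]
  · intro g
    obtain ⟨X, b, hX1, hX2⟩ := hX g
    have h1 : ∀ x : X, ∃ S : Set (M → N),
        S ⊆ (fun (f : M → Iio (b x)) i => (f i : N)) '' H (b x) ∧ #S < #M ∧
        ∀ i, g i < b x → ∃ h ∈ S, h i = g i := by
      intro x
      by_cases hx : ∃ i, g i < b x
      · obtain ⟨i0, hi0⟩ := hx
        let g' : M → Iio (b x) := fun i => if h : g i < b x then ⟨g i, h⟩ else ⟨g i0, hi0⟩
        obtain ⟨S, h3, h4, h5⟩ := hH2 (b x) g'
        refine ⟨(fun (f : M → Iio (b x)) i => (f i : N)) '' S, image_mono h3,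
          mk_image_le.trans_lt h4, ?_⟩
        intro i hi
        obtain ⟨f, hf1, hf2⟩ := h5 i
        refine ⟨_, ⟨f, hf1, rfl⟩, ?_⟩
        simp only [hf2, g', dif_pos hi]
      · push Not at hx
        refine ⟨∅, empty_subset _, ?_, fun i hi => absurd hi (not_lt.2 (hx i))⟩
        rw [mk_eq_zero]
        exact hM.pos
    choose S hS1 hS2 hS3 using h1
    refine ⟨⋃ x, S x, ?_, ?_, ?_⟩
    · intro f hf
      obtain ⟨x, hx⟩ := mem_iUnion.1 hf
      exact mem_iUnion.2 ⟨b x, hS1 x hx⟩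
    · exact (mk_iUnion_le_sum_mk).trans_lt (sum_lt_of_isRegular hM hX1 hS2)
    · intro i
      obtain ⟨x, hx⟩ := hX2 i
      obtain ⟨h, hh1, hh2⟩ := hS3 x i hx
      exact ⟨h, mem_iUnion.2 ⟨x, hh1⟩, hh2⟩

theorem covLe_all {μ lam : Cardinal.{u}} (hμ : μ.IsRegular) (h2 : (2 : Cardinal.{u}) ^ μ ≤ lam)
    (h3 : ∀ ν < lam, ν.ord.cof = μ → CovLe μ ν lam) : ∀ ν < lam, CovLe μ ν lam := by
  have hlam : ℵ₀ ≤ lam := hμ.aleph0_le.trans ((cantor μ).le.trans h2)
  intro ν
  induction ν using WellFoundedLT.induction with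
  | ind ν ih =>
    intro hν
    by_cases hc : ν.ord.cof = μ
    · exact h3 ν hν hc
    rw [covT_iff]
    by_cases hs : ν ≤ μ
    · refine ⟨Set.univ, ?_, ?_⟩
      · rw [mk_univ, mk_arrow, Cardinal.lift_id, Cardinal.lift_id, mk_ord_toType, mk_ord_toType]
        refine (power_le_power_right hs).trans ?_
        rwa [power_self_eq hμ.aleph0_le]
      · intro g
        refine ⟨{g}, subset_univ _, ?_, fun i => ⟨g, rfl, rfl⟩⟩
        rw [mk_singleton, mk_ord_toType]
        exact one_lt_aleph0.trans_le hμ.aleph0_le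
    · rw [not_le] at hs
      have hν0 : ℵ₀ ≤ ν := hμ.aleph0_le.trans hs.le
      have hcN : #(ν.ord.ToType) = ν := mk_ord_toType ν
      refine covT_of_bounds (by rwa [mk_ord_toType]) hlam (by rw [hcN]; exact hν.le) ?_ ?_
      · intro b
        have h4 : #(Iio b) < ν := mk_Iio_toType_ord_lt b
        have h5 := ih _ h4 (h4.trans hν)
        rw [covT_iff] at h5
        have h6 : #(Iio b) = #((#(Iio b)).ord.ToType) := (mk_ord_toType _).symm
        obtain ⟨e⟩ := Cardinal.eq.1 h6
        exact h5.congr e.symm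
      · intro g
        have hcof : Order.cof ν.ord.ToType = ν.ord.cof := cof_toType _
        rcases lt_or_gt_of_ne hc with h | h
        · obtain ⟨s, hs1, hs2⟩ := Order.exists_cof_eq ν.ord.ToType
          have hlim : ∀ a : ν.ord.ToType, ∃ b, a < b := by
            intro a
            by_contra hcon
            push Not at hcon
            have h7 : (Set.univ : Set ν.ord.ToType) = insert a (Iio a) := by
              ext x
              simp only [mem_univ, mem_insert_iff, mem_Iio, true_iff]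
              rcases (hcon x).lt_or_eq with h | h
              · exact Or.inr h
              · exact Or.inl h
            have h8 : #(Set.univ : Set ν.ord.ToType) ≤ #(Iio a) + 1 := by
              rw [h7]
              exact mk_insert_le
            rw [mk_univ, hcN] at h8
            exact absurd h8 (not_le.2 (add_lt_of_lt hν0 (mk_Iio_toType_ord_lt a)
              (one_lt_aleph0.trans_le hν0)))
          choose nxt hnxt using hlim
          refine ⟨s, fun x => nxt x.1, ?_, ?_⟩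
          · rw [hs2, hcof, mk_ord_toType]
            exact h
          · intro i
            obtain ⟨b, hb, hb2⟩ := hs1 (g i)
            exact ⟨⟨b, hb⟩, hb2.trans_lt (hnxt b)⟩
        · obtain ⟨b, hb⟩ := exists_strict_ub g (by rw [hcof, mk_ord_toType]; exact h)
          refine ⟨PUnit, fun _ => b, ?_, fun i => ⟨⟨⟩, hb i⟩⟩
          rw [mk_punit, mk_ord_toType]
          exact one_lt_aleph0.trans_le hμ.aleph0_le

/-- `CovSets μ ν lam`: there is a family of at most `lam` subsets of `ν`, each of size at most `μ`,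
such that every subset of `ν` of size at most `μ` is included in the union of fewer than `μ`
members of the family. In Shelah's notation, `cov(ν, μ⁺, μ⁺, μ) ≤ lam`. -/
def CovSets (μ ν lam : Cardinal.{u}) : Prop :=
  ∃ P : Set (Set ν.ord.ToType), #P ≤ lam ∧ (∀ A ∈ P, #A ≤ μ) ∧
    ∀ B : Set ν.ord.ToType, #B ≤ μ → ∃ T ⊆ P, #T < μ ∧ B ⊆ ⋃₀ T

open Classical in
theorem covLe_of_sets {μ ν lam : Cardinal.{u}} (hμ : ℵ₀ ≤ μ) (h2 : (2 : Cardinal.{u}) ^ μ ≤ lam)
    (h : CovSets μ ν lam) : CovLe μ ν lam := by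
  have hlam : ℵ₀ ≤ lam := hμ.trans ((cantor μ).le.trans h2)
  obtain ⟨P, hP1, hP2, hP3⟩ := h
  refine ⟨⋃ A : P, {f : μ.ord.ToType → ν.ord.ToType | ∀ i, f i ∈ A.1}, ?_, ?_⟩
  · refine (mk_iUnion_le _).trans ?_
    have h3 : ∀ A : P, #{f : μ.ord.ToType → ν.ord.ToType | ∀ i, f i ∈ A.1} ≤ lam := by
      intro A
      have h4 : #{f : μ.ord.ToType → ν.ord.ToType | ∀ i, f i ∈ A.1} ≤ #(μ.ord.ToType → A.1) := by
        refine mk_le_of_injective (f := fun f i => (⟨f.1 i, f.2 i⟩ : A.1)) ?_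
        intro f g hfg
        apply Subtype.ext
        funext i
        have := congrFun hfg i
        exact Subtype.ext_iff.1 this
      refine h4.trans ?_
      rw [mk_arrow, Cardinal.lift_id, Cardinal.lift_id, mk_ord_toType]
      refine (power_le_power_right (hP2 A.1 A.2)).trans ?_
      rwa [power_self_eq hμ]
    refine (mul_le_mul' hP1 (ciSup_le' h3)).trans ?_
    rw [mul_eq_self hlam]
  · intro g
    obtain ⟨T, hT1, hT2, hT3⟩ := hP3 (Set.range g) (by
      refine mk_range_le.trans ?_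
      rw [mk_ord_toType])
    let F : T → (μ.ord.ToType → ν.ord.ToType) := fun A i =>
      if g i ∈ A.1 then g i else if h : A.1.Nonempty then h.choose else g i
    refine ⟨F '' {A : T | A.1.Nonempty}, ?_, ?_, ?_⟩
    · rintro _ ⟨A, hA, rfl⟩
      refine mem_iUnion.2 ⟨⟨A.1, hT1 A.2⟩, ?_⟩
      intro i
      have hA' : A.1.Nonempty := hA
      by_cases h5 : g i ∈ A.1
      · simp only [F, if_pos h5]
        exact h5
      · simp only [F, if_neg h5, dif_pos hA']
        exact hA'.choose_spec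
    · exact (mk_image_le.trans (mk_subtype_le _)).trans_lt hT2
    · intro i
      obtain ⟨A, hA1, hA2⟩ := hT3 (mem_range_self i)
      refine ⟨F ⟨A, hA1⟩, ⟨⟨A, hA1⟩, ⟨g i, hA2⟩, rfl⟩, ?_⟩
      simp only [F, if_pos hA2]

theorem main2 (lam : Cardinal.{u}) (h1 : ℵ₀ < lam.ord.cof) (h2 : lam.ord.cof < lam)
    (h3 : (2 : Cardinal.{u}) ^ lam.ord.cof ≤ lam)
    (h4 : ∀ ν < lam, ν.ord.cof = lam.ord.cof → CovSets lam.ord.cof ν lam) :
    ¬ BoldSigColouring 1 (Order.succ lam) := by
  refine main_core2 lam h1 h2 h3 (covLe_all ?_ h3 ?_)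
  · exact ⟨h1.le, (cof_ord_cof _).ge⟩
  · exact fun ν hν hc => covLe_of_sets h1.le h3 (h4 ν hν hc)

end Pool.Agent.W5h77.Sg2
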