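import Pool.Agent.W5h77.Sg.Inj

/-!
The set of codes attached to an ordinal by a certificate, for the base ideal itself.
-/

namespace Pool.Agent.W5h77.Sg2

universe u v w

open Set Cardinal Ordinal Pool.Agent.W5h77.Sg

variable {M V : Type u} [LinearOrder V] {I : Set (Set M)} {Q : M → Type u} {D : Type w}

theorem closedJ_self : ClosedJ I I := by
  intro X hX C hC
  have h1 : C.Nonempty := by
    by_contra hcon
    rw [not_nonempty_iff_eq_empty] at hcon
    subst hcon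
    exact hX (hC.null X (Subset.refl _) (by simp))
  obtain ⟨Y, hY⟩ := h1
  exact ⟨Y, hY, hC.pos Y hY⟩

/-- The set of codes attached to the ordinal `β` by the certificate `c, r`. -/
def InG2 (S : Pieces I Q D) (φ : ∀ i, V → Set (Q i)) (c : ∀ i, Q i → V) (r : D → Ordinal.{u})
    (β : Ordinal.{u}) (k : D × Bool) : Prop :=
  ∃ ξ, S.dom ξ ⊆ S.dom k.1 ∧
    (∀ η, S.dom η ⊆ S.dom ξ → (∀ i ∈ S.dom η, S.val η i = S.val ξ i) → r η = β) ∧
    ∀ i ∈ S.dom ξ, (S.val k.1 i ∈ φ i (c i (S.val ξ i)) ↔ k.2 = true)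

variable [WellFoundedLT V] {S : Pieces I Q D} {φ : ∀ i, V → Set (Q i)}
  {c c' : ∀ i, Q i → V} {r r' : D → Ordinal.{u}} {β β' : Ordinal.{u}}

theorem good_iff2 (hI : SIdeal I) (hc : DC c) (hr : Rec S c r) (ξ : D) :
    (∀ η, S.dom η ⊆ S.dom ξ → (∀ i ∈ S.dom η, S.val η i = S.val ξ i) → r η = β) ↔
      ∀ Z, Z ⊆ S.dom ξ → Z ∉ I → nrm I Z (fn S c ξ) = β := by
  constructor
  · intro h Z hZ hZI
    obtain ⟨η, h1, h2⟩ := S.restr ξ Z hZ hZI
    have h3 := h η (by rwa [h1]) (by rwa [h1])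
    rw [rec_unique hI hc hr η, h1] at h3
    rw [← h3]
    refine nrm_congr hI hZI ?_
    intro i hi
    simp only [fn, h2 i hi]
  · intro h η h1 h2
    rw [rec_unique hI hc hr η, ← h _ h1 (S.pos η)]
    refine nrm_congr hI (S.pos η) ?_
    intro i hi
    simp only [fn, h2 i hi]

open Classical in
/-- A stable function of small norm is coded below the function coded by `t`. -/
theorem exists_code_below (hI : SIdeal I) (hc : DC c) {t : D}
    (f : M → V) {X : Set M} (hX : X ∉ I) (q0 : ∀ i, Q i)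
    (hf : ∀ Z, Z ⊆ X → Z ∉ I → nrm I Z f = β) (hβ : β < nrm I Set.univ (fn S c t)) :
    ∃ d, S.dom d ⊆ X ∧ ∀ i ∈ S.dom d, c i (S.val d i) = f i := by
  set x := fn S c t with hx
  let Y : Set M := {i | i ∈ X ∧ ¬ f i < x i}
  let T : Set M := {i | i ∈ X ∧ f i < x i}
  have hY : Y ∈ I := by
    by_contra hY
    have h5 := hf Y (fun i hi => hi.1) hY
    have h6 : nrm I Set.univ x ≤ nrm I Y f :=
      (nrm_mono_set hI hY (subset_univ _)).trans
        (nrm_mono_fun hI hY fun i hi => not_lt.1 hi.2)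
    rw [h5] at h6
    exact absurd hβ (not_lt.2 h6)
  have hJ : ClosedJ I I := closedJ_self
  have hT : T ∉ I := by
    rcases hJ.split hI (A := Y) (B := T) hX (by
      ext i
      simp only [Y, T, mem_union, mem_ofPred_eq]
      tauto) (fun i hi hi' => hi.2 hi'.2) with h5 | h5
    · exact absurd hY h5
    · exact h5
  have h5 : ∀ i, ∃ q : Q i, f i < x i → c i q = f i := by
    intro i
    by_cases h : f i < x i
    · obtain ⟨q, hq⟩ := hc i _ _ h
      exact ⟨q, fun _ => hq⟩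
    · exact ⟨q0 i, fun h' => absurd h' h⟩
  choose δ hδ using h5
  obtain ⟨d, h6, h7, h8⟩ := hJ.piece S hT δ
  refine ⟨d, fun i hi => (h6 hi).1, ?_⟩
  intro i hi
  rw [h8 i hi]
  exact hδ i (h6 hi).2

theorem inG2_transfer (hI : SIdeal I) (hc : DC c) (hr : Rec S c r) (hc' : DC c')
    (hr' : Rec S c' r') {t : D} (ht : S.dom t = Set.univ) (hβ : β < r' t)
    {k : D × Bool} (h : InG2 S φ c r β k) : InG2 S φ c' r' β k := by
  obtain ⟨ξ, h1, h3, h4⟩ := h
  rw [good_iff2 hI hc hr] at h3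
  have hβ' : β < nrm I Set.univ (fn S c' t) := by
    rw [rec_unique hI hc' hr' t, ht] at hβ
    exact hβ
  obtain ⟨d, h6, h9⟩ := exists_code_below hI hc' (fn S c ξ) (S.pos ξ) (S.val ξ) h3 hβ'
  refine ⟨d, h6.trans h1, ?_, ?_⟩
  · rw [good_iff2 hI hc' hr']
    intro Z hZ hZI
    rw [← h3 Z (hZ.trans h6) hZI]
    exact nrm_congr hI hZI (fun i hi => h9 i (hZ hi))
  · intro i hi
    rw [h9 i hi]
    exact h4 i (h6 hi)

open Classical in
/-- Codes exist as soon as there is a stable piece. -/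
theorem inG2_nonempty (hI : SIdeal I) (hc : DC c) (hr : Rec S c r) (ξ : D)
    (h : ∀ Z, Z ⊆ S.dom ξ → Z ∉ I → nrm I Z (fn S c ξ) = β) : ∃ k, InG2 S φ c r β k := by
  have hJ : ClosedJ I I := closedJ_self
  have key : ∀ (T : Set M) (s : Bool), T ⊆ S.dom ξ → T ∉ I →
      (∀ i ∈ T, (S.val ξ i ∈ φ i (c i (S.val ξ i)) ↔ s = true)) → ∃ k, InG2 S φ c r β k := by
    intro T s hT hTI hs
    obtain ⟨ξ', h1, h2⟩ := S.restr ξ T hT hTI
    refine ⟨(ξ, s), ξ', by rwa [h1], ?_, ?_⟩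
    · rw [good_iff2 hI hc hr]
      intro Z hZ hZI
      rw [h1] at hZ
      rw [← h Z (hZ.trans hT) hZI]
      refine nrm_congr hI hZI ?_
      intro i hi
      simp only [fn, h2 i (hZ hi)]
    · intro i hi
      rw [h1] at hi
      rw [h2 i hi]
      exact hs i hi
  rcases hJ.split hI (A := {i | i ∈ S.dom ξ ∧ S.val ξ i ∈ φ i (c i (S.val ξ i))})
    (B := {i | i ∈ S.dom ξ ∧ ¬ S.val ξ i ∈ φ i (c i (S.val ξ i))}) (S.pos ξ) (by
      ext i
      simp only [mem_union, mem_ofPred_eq]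
      tauto) (fun i hi hi' => hi'.2 hi.2) with h3 | h3
  · exact key _ true (fun i hi => hi.1) h3 (fun i hi => by simp [hi.2])
  · exact key _ false (fun i hi => hi.1) h3 (fun i hi => by simp [hi.2])

end Pool.Agent.W5h77.Sg2
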