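import Pool.Agent.W5h77.Sg.Main
import Pool.Agent.W5h77.Sg2.Col3

/-!
The main theorem under `2 ^ cf lam ≤ lam` and a covering hypothesis.
-/

namespace Pool.Agent.W5h77.Sg2

universe u v w

open Set Cardinal Ordinal Pool.Agent.W5h77.Sg

open Classical in
/-- Covers are coded by functions. -/
theorem cover_range {M : Type u} {I : Set (Set M)} (hI : SIdeal I) {X : Set M} {C : Set (Set M)}
    (hC : Cover I X C) : ∃ e : M → Set M, {Y | Y ∈ Set.range e ∧ Y ∉ I} = C := by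
  refine ⟨fun i => if h : ∃ Y ∈ C, i ∈ Y then h.choose else ∅, ?_⟩
  ext Y
  constructor
  · rintro ⟨⟨i, hi⟩, hY⟩
    by_cases h : ∃ Y ∈ C, i ∈ Y
    · simp only [dif_pos h] at hi
      rw [← hi]
      exact h.choose_spec.1
    · simp only [dif_neg h] at hi
      rw [← hi] at hY
      exact absurd hI.empty hY
  · intro hY
    refine ⟨?_, hC.pos Y hY⟩
    have h1 : Y.Nonempty := by
      by_contra hcon
      rw [not_nonempty_iff_eq_empty] at hcon
      have := hC.pos Y hY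
      rw [hcon] at this
      exact this hI.empty
    obtain ⟨i, hi⟩ := h1
    have h : ∃ Y ∈ C, i ∈ Y := ⟨Y, hY, hi⟩
    refine ⟨i, ?_⟩
    simp only [dif_pos h]
    exact hC.disj _ h.choose_spec.1 _ hY i h.choose_spec.2 hi

theorem main_core2 (lam : Cardinal.{u}) (h1 : ℵ₀ < lam.ord.cof) (h2 : lam.ord.cof < lam)
    (h3 : (2 : Cardinal.{u}) ^ lam.ord.cof ≤ lam)
    (h4 : ∀ ν < lam, CovLe lam.ord.cof ν lam) : ¬ BoldSigColouring 1 (Order.succ lam) := by
  intro hcol
  have hlam0 : ℵ₀ < lam := h1.trans h2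
  have hlam : ℵ₀ ≤ lam := hlam0.le
  set μ := lam.ord.cof with hμ
  have hM : RegIdx μ.ord.ToType := regIdx h1 (by rw [hμ]; exact cof_ord_cof _)
  have hcM : #(μ.ord.ToType) = μ := mk_ord_toType μ
  have hcL : #(lam.ord.ToType) = lam := mk_ord_toType lam
  obtain ⟨lw, hlw⟩ := exists_lw hlam0
  obtain ⟨Λ, hΛ, hinf⟩ := exists_cofn (L := lam.ord.ToType) hM
    (by rw [cof_toType, hcM]) lw hlw
  obtain ⟨H, hH1, hH2, hH3⟩ := exists_H hΛ hlam h4
  haveI : Nonempty μ.ord.ToType := by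
    rw [← mk_ne_zero_iff, hcM]
    exact (aleph0_pos.trans h1).ne'
  haveI : Nonempty lam.ord.ToType := ⟨lw⟩
  let j0 : μ.ord.ToType := Classical.arbitrary _
  let t0 : PD Λ H := ⟨j0, ⟨Set.univ, NS.univ_notMem hM⟩, ⟨_, hH3 j0⟩⟩
  haveI : Nonempty (PD Λ H) := ⟨t0⟩
  have hS1 : #(Set μ.ord.ToType) ≤ lam := by
    rw [mk_set, hcM]; exact h3
  have hS2 : #(μ.ord.ToType → Set μ.ord.ToType) ≤ lam := by
    rw [mk_arrow, Cardinal.lift_id, Cardinal.lift_id, mk_set, hcM, ← power_mul, mul_eq_self h1.le]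
    exact h3
  have hPD : #(PD Λ H) ≤ #(lam.ord.ToType) := by
    refine mk_PD ?_ ?_ ?_
    · rwa [hcL]
    · rwa [hcL]
    · intro j; rw [hcL]; exact hH2 j
  obtain ⟨decD, hdecD⟩ := exists_surj hPD
  obtain ⟨decE, hdecE⟩ := exists_surj (α := lam.ord.ToType)
    (β := μ.ord.ToType → Set μ.ord.ToType) (by rwa [hcL])
  obtain ⟨decT, hdecT⟩ := exists_surj (α := lam.ord.ToType) (β := Set μ.ord.ToType)
    (by rwa [hcL])
  obtain ⟨decK, hdecK⟩ := exists_surj (α := lam.ord.ToType)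
    (β := lam.ord.ToType × Bool) (by
      simp only [mk_prod, Cardinal.lift_id, Cardinal.lift_uzero, hcL]
      refine (mul_le_mul' le_rfl (?_ : _ ≤ lam)).trans ?_
      · simp only [mk_bool, Cardinal.lift_ofNat]
        exact (Cardinal.nat_lt_aleph0 2).le.trans hlam
      · rw [mul_eq_self hlam])
  obtain ⟨pt⟩ := exists_points hΛ (by rw [hcM, hcL]; exact h2.le) (by rwa [hcL])
  obtain ⟨φ, hφ⟩ := exists_phi hinf
  let decS : lam.ord.ToType → Set (Set μ.ord.ToType) := fun s =>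
    {Y | Y ∈ Set.range (decE s) ∧ Y ∉ NS μ.ord.ToType}
  have hdecS : ∀ X C, Cover (NS μ.ord.ToType) X C → ∃ s, decS s = C := by
    intro X C hC
    obtain ⟨e, he⟩ := cover_range (NS.sideal hM) hC
    obtain ⟨s, rfl⟩ := hdecE e
    exact ⟨s, he⟩
  let S := (mkPieces hM hΛ H hH1).comap decD hdecD
  obtain ⟨t, ht⟩ := hdecD t0
  have ht1 : S.dom t = Set.univ := by
    change (decD t).2.1.1 = Set.univ
    rw [ht]
  have ht2 : ∀ i, S.val t i = hΛ.dflt i := by
    intro i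
    change (mkPieces hM hΛ H hH1).val (decD t) i = _
    rw [ht]
    have h5 : ((hΛ.dflt j0 : Iio (Λ j0)) : lam.ord.ToType) < Λ i := (hΛ.dflt i).2
    simp only [mkPieces, t0]
    rw [dif_pos h5]
    rfl
  have hdat : Dat S pt φ decK t := ⟨hM, hlam, hΛ, hinf, ht1, ht2, hS1, hdecK, hφ⟩
  have hκ : (Order.succ lam).IsRegular := isRegular_succ hlam
  obtain ⟨Φ, hΦ⟩ := exists_sig1b.{u}
  let z : Fin 12 → ZFSet.{u} := ![lam.ord.toZFSet, rel2 (rB1 S decK), rel3 (rB2 S),
    rel3 (rB3 S pt φ decK), rel2 (rA4 S pt), rel2 (rA5 pt), rel2 (rA6 S decS),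
    rel2 (rA7 decS decT), rel2 (rA8 S decT), cod t, {∅}, ∅]
  have hlt : lam < Order.succ lam := Order.lt_succ lam
  have hr2 := fun A => InH.rel2 (lam := lam) hκ hlt hlam A
  have hr3 := fun A => InH.rel3 (lam := lam) hκ hlt hlam A
  have hemp : InH (Order.succ lam) (∅ : ZFSet.{u}) := by
    have := InH.ord (κ := Order.succ lam) (o := 0) (by
      rw [lt_ord]; simp)
    simpa using this
  have hz : ∀ j, InH (Order.succ lam) (z j) := by
    intro j
    fin_cases j
    · exact InH.ord (ord_strictMono hlt)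
    · exact hr2 _
    · exact hr3 _
    · exact hr3 _
    · exact hr2 _
    · exact hr2 _
    · exact hr2 _
    · exact hr2 _
    · exact hr2 _
    · exact InH.cod (ord_le_ord.2 hlt.le) t
    · change InH (Order.succ lam) ({∅} : ZFSet.{u})
      rw [← ZFSet.pair_eq_singleton]
      exact InH.upair hκ hemp hemp
    · exact hemp
  have hpart : IsSigPartition 1 (Order.succ lam) z (col2 S pt φ decK t) := by
    refine ⟨Φ, ?_⟩
    intro α β hab hβ y
    rw [hΦ, ← hdat.colL_iff hdecS hdecT hab hβ y]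
    exact psi2_iff t y
  obtain ⟨Hs, hHs1, hHs2, y, hy⟩ := hcol 12 z hz (col2 S pt φ decK t)
    (fun α β _ _ => col2_or α β) hpart
  refine sierpinski2 hκ (by rw [hcL]; exact hlt)
    (fun α => GG2 S pt φ decK t (nx S pt φ decK t α)) (fun α hα => hdat.avoid hα)
    Hs hHs1 hHs2.ge (y = {∅}) ?_
  intro α hα β hβ hab
  rw [← col2_eq_one, hy α hα β hβ hab]

end Pool.Agent.W5h77.Sg2
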