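import Pool.Agent.W5h77.Sg.Sier

/-!
The Sierpinski colouring attached to a function into the power set of a small well-order, each
value of which is eventually avoided.
-/

namespace Pool.Agent.W5h77.Sg2

universe u

open Set Cardinal Ordinal Pool.Agent.W5h77.Sg

variable {L : Type u} [LinearOrder L] [WellFoundedLT L]

theorem sierpinski2 {κ : Cardinal.{u}} (hκ : κ.IsRegular) (hL : #L < κ)
    (G : Ordinal.{u} → Set L)
    (hG : ∀ α < κ.ord, ∃ γ < κ.ord, ∀ β < κ.ord, γ < β → G α ≠ G β) (H : Set Ordinal.{u})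
    (hH : H ⊆ Iio κ.ord) (hc : Cardinal.lift.{u+1} κ ≤ #H) (b : Prop)
    (hom : ∀ α ∈ H, ∀ β ∈ H, α < β → (LexLt (G α) (G β) ↔ b)) : False := by
  have hunb : ∀ γ < κ.ord, ∃ α ∈ H, γ < α := by
    intro γ hγ
    by_contra hcon
    push Not at hcon
    have h1 : H ⊆ Iio (Order.succ γ) := fun α hα => Order.lt_succ_iff.2 (hcon α hα)
    have h2 := hc.trans (mk_le_mk_of_subset h1)
    rw [Cardinal.mk_Iio_ordinal, Cardinal.lift_le] at h2
    have h3 : Order.succ γ < κ.ord := (isSuccLimit_ord hκ.aleph0_le).succ_lt hγ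
    exact absurd (lt_ord.1 h3) (not_lt.2 h2)
  have hbit : ∀ z : L, ∃ g < κ.ord, ∀ α ∈ H, ∀ β ∈ H, g < α → g < β → (z ∈ G α ↔ z ∈ G β) := by
    intro z
    induction z using WellFoundedLT.induction with
    | ind z ih =>
      have h1 : ∀ w : Iio z, ∃ g < κ.ord, ∀ α ∈ H, ∀ β ∈ H, g < α → g < β →
        (w.1 ∈ G α ↔ w.1 ∈ G β) := fun w => ih w.1 w.2
      choose g hg1 hg2 using h1
      have h2 : (⨆ w, g w) < κ.ord := by
        refine iSup_lt_ord_of_isRegular hκ ?_ hg1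
        exact (mk_subtype_le _).trans_lt hL
      set g' := ⨆ w, g w with hg'
      have h3 : ∀ α ∈ H, ∀ β ∈ H, g' < α → g' < β → ∀ w < z, (w ∈ G α ↔ w ∈ G β) := by
        intro α hα β hβ h4 h5 w hw
        have h6 : g ⟨w, hw⟩ ≤ g' := Ordinal.le_iSup g ⟨w, hw⟩
        exact hg2 ⟨w, hw⟩ α hα β hβ (h6.trans_lt h4) (h6.trans_lt h5)
      by_cases hb : b
      · have h4 : ∀ α ∈ H, ∀ β ∈ H, g' < α → g' < β → α < β → z ∈ G α → z ∈ G β := by
          intro α hα β hβ h5 h6 h7 h8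
          obtain ⟨y, h9, h10, h11⟩ := (hom α hα β hβ h7).2 hb
          rcases lt_trichotomy y z with h | h | h
          · exact absurd ((h3 α hα β hβ h5 h6 y h).2 h9) h10
          · rw [h] at h10; exact absurd h8 h10
          · exact (h11 z h).1 h8
        by_cases h5 : ∃ α ∈ H, g' < α ∧ z ∈ G α
        · obtain ⟨α, hα, h6, h7⟩ := h5
          refine ⟨α, hH hα, ?_⟩
          intro β hβ γ hγ h8 h9
          exact ⟨fun _ => h4 α hα γ hγ h6 (h6.trans h9) h9 h7,
            fun _ => h4 α hα β hβ h6 (h6.trans h8) h8 h7⟩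
        · push Not at h5
          refine ⟨g', h2, ?_⟩
          intro β hβ γ hγ h8 h9
          exact ⟨fun h => absurd h (h5 β hβ h8), fun h => absurd h (h5 γ hγ h9)⟩
      · have h4 : ∀ α ∈ H, ∀ β ∈ H, g' < α → g' < β → α < β → z ∈ G β → z ∈ G α := by
          intro α hα β hβ h5 h6 h7 h8
          by_contra h9
          exact hb ((hom α hα β hβ h7).1 ⟨z, h8, h9, h3 α hα β hβ h5 h6⟩)
        by_cases h5 : ∃ α ∈ H, g' < α ∧ z ∉ G α
        · obtain ⟨α, hα, h6, h7⟩ := h5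
          refine ⟨α, hH hα, ?_⟩
          intro β hβ γ hγ h8 h9
          exact ⟨fun h => absurd (h4 α hα β hβ h6 (h6.trans h8) h8 h) h7,
            fun h => absurd (h4 α hα γ hγ h6 (h6.trans h9) h9 h) h7⟩
        · push Not at h5
          refine ⟨g', h2, ?_⟩
          intro β hβ γ hγ h8 h9
          exact ⟨fun _ => h5 γ hγ h9, fun _ => h5 β hβ h8⟩
  choose g hg1 hg2 using hbit
  have h2 : (⨆ w, g w) < κ.ord := iSup_lt_ord_of_isRegular hκ hL hg1
  obtain ⟨α, hα, h3⟩ := hunb _ h2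
  obtain ⟨γ, hγ, h7⟩ := hG α (hH hα)
  obtain ⟨β, hβ, h4⟩ := hunb (max α γ) (max_lt (hH hα) hγ)
  have h5 : G α = G β := by
    ext z
    have h6 : g z ≤ ⨆ w, g w := Ordinal.le_iSup g z
    exact hg2 z α hα β hβ (h6.trans_lt h3)
      (h6.trans_lt (h3.trans ((le_max_left _ _).trans_lt h4)))
  exact h7 β (hH hβ) ((le_max_right _ _).trans_lt h4) h5

end Pool.Agent.W5h77.Sg2
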