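import Pool.Agent.W5h77.Sg.Sem
import Pool.Agent.W5h77.Sg2.Sier2

/-!
The `Σ_0` matrix of the formula defining the colouring which uses the next ordinal with a nonempty
set of codes.
-/

namespace Pool.Agent.W5h77.Sg2

universe u

open Cardinal Ordinal Set Pool.Agent.W5h77.Sg

def ZNext (lam A1 A2 A3 A4 C R a b : ZFSet.{u}) : Prop :=
  ¬ b ∈ a ∧ (∃ z ∈ lam, ZInG lam A1 A2 A3 A4 C R b z) ∧
    ∀ g ∈ b, ¬ g ∈ a → ∀ z ∈ lam, ¬ ZInG lam A1 A2 A3 A4 C R g z

def Psi2 (lam kap A1 A2 A3 A4 A5 A6 A7 A8 t0 one zer a b y C R : ZFSet.{u}) : Prop :=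
  ZCertC lam A5 C ∧ ZCertR lam kap A4 A5 A6 A7 A8 C R ∧ ∃ a' ∈ kap, ∃ b' ∈ kap,
    ZNext lam A1 A2 A3 A4 C R a a' ∧ ZNext lam A1 A2 A3 A4 C R b b' ∧
    (∃ g ∈ kap, mP t0 g R ∧ b' ∈ g) ∧
    ((y = one ∧ ZLex lam A1 A2 A3 A4 C R a' b') ∨ (y = zer ∧ ¬ ZLex lam A1 A2 A3 A4 C R a' b'))

section
variable {n : ℕ} {lam kap A1 A2 A3 A4 A5 A6 A7 A8 t0 one zer a b y C R :
  (Fin n → ZFSet.{u}) → ZFSet.{u}}

theorem D0.zNext (h1 : IsVar lam) (h2 : IsVar A1) (h3 : IsVar A2) (h4 : IsVar A3) (h5 : IsVar A4)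
    (h6 : IsVar C) (h7 : IsVar R) (h8 : IsVar a) (h9 : IsVar b) :
    D0 (fun v => ZNext (lam v) (A1 v) (A2 v) (A3 v) (A4 v) (C v) (R v) (a v) (b v)) := by
  unfold ZNext
  refine D0.and (D0.not (D0.mem h9 h8)) (D0.and ?_ ?_)
  · refine D0.bex h1 ?_
    exact D0.zInG h1.init h2.init h3.init h4.init h5.init h6.init h7.init h9.init .last
  · refine D0.ball h9 ?_
    refine D0.imp (D0.not (D0.mem .last h8.init)) ?_
    refine D0.ball h1.init ?_
    exact D0.not (D0.zInG h1.init.init h2.init.init h3.init.init h4.init.init h5.init.init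
      h6.init.init h7.init.init (IsVar.init .last) .last)

theorem D0.psi2 (h1 : IsVar lam) (h2 : IsVar kap) (h3 : IsVar A1) (h4 : IsVar A2) (h5 : IsVar A3)
    (h6 : IsVar A4) (h7 : IsVar A5) (h8 : IsVar A6) (h9 : IsVar A7) (h10 : IsVar A8)
    (h11 : IsVar t0) (h12 : IsVar one) (h13 : IsVar zer) (h14 : IsVar a) (h15 : IsVar b)
    (h16 : IsVar y) (h17 : IsVar C) (h18 : IsVar R) :
    D0 (fun v => Psi2 (lam v) (kap v) (A1 v) (A2 v) (A3 v) (A4 v) (A5 v) (A6 v) (A7 v) (A8 v)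
      (t0 v) (one v) (zer v) (a v) (b v) (y v) (C v) (R v)) := by
  unfold Psi2
  refine D0.and (D0.zCertC h1 h7 h17) (D0.and (D0.zCertR h1 h2 h6 h7 h8 h9 h10 h17 h18) ?_)
  refine D0.bex h2 ?_
  refine D0.bex h2.init ?_
  refine D0.and (D0.zNext h1.init.init h3.init.init h4.init.init h5.init.init h6.init.init
    h17.init.init h18.init.init h14.init.init (IsVar.init .last)) ?_
  refine D0.and (D0.zNext h1.init.init h3.init.init h4.init.init h5.init.init h6.init.init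
    h17.init.init h18.init.init h15.init.init .last) ?_
  have hL := D0.zLex h1.init.init h3.init.init h4.init.init h5.init.init h6.init.init
    h17.init.init h18.init.init (IsVar.init (IsVar.last (n := n))) IsVar.last
  refine D0.and ?_ (D0.or ?_ ?_)
  · refine D0.bex h2.init.init ?_
    exact D0.and (D0.memP h11.init.init.init .last h18.init.init.init)
      (D0.mem (IsVar.init .last) .last)
  · exact D0.and (D0.eq h16.init.init h12.init.init) hL
  · exact D0.and (D0.eq h16.init.init h13.init.init) (D0.not hL)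

end

end Pool.Agent.W5h77.Sg2
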