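import Pool.Agent.W5h77.Sg2.Psi2

/-!
Evaluation of the second `Σ_1`-formula.
-/

namespace Pool.Agent.W5h77.Sg2

universe u

open Cardinal Ordinal Set Pool.Agent.W5h77.Sg

section L
variable {L : Type u} [LinearOrder L] (A1 : L → L → Prop) (A2 A3 : L → L → L → Prop)
  (A4 A5 A6 A7 A8 : L → L → Prop) (c : L → L) (r : L → Ordinal.{u})

def NextL (α α' : Ordinal.{u}) : Prop :=
  α ≤ α' ∧ (∃ z, InGL A1 A2 A3 A4 c r α' z) ∧
    ∀ γ < α', α ≤ γ → ∀ z, ¬ InGL A1 A2 A3 A4 c r γ z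

/-- The statement expressed by the `Σ_1`-formula. -/
def ColL2 (κ : Cardinal.{u}) (t0 : L) (α β : Ordinal.{u}) (y : ZFSet.{u}) : Prop :=
  DCL A5 c ∧ RecL A4 A5 A6 A7 A8 c r ∧ (∀ x, r x < κ.ord) ∧
    ∃ α' < κ.ord, ∃ β' < κ.ord, NextL A1 A2 A3 A4 c r α α' ∧ NextL A1 A2 A3 A4 c r β β' ∧
      β' < r t0 ∧
    ((y = {∅} ∧ LexLt {z | InGL A1 A2 A3 A4 c r α' z} {z | InGL A1 A2 A3 A4 c r β' z}) ∨
     (y = ∅ ∧ ¬ LexLt {z | InGL A1 A2 A3 A4 c r α' z} {z | InGL A1 A2 A3 A4 c r β' z}))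

end L

section eval
variable {lam : Cardinal.{u}} {A1 A4 A5 A6 A7 A8 : lam.ord.ToType → lam.ord.ToType → Prop}
  {A2 A3 : lam.ord.ToType → lam.ord.ToType → lam.ord.ToType → Prop}
  {C R : ZFSet.{u}} {c : lam.ord.ToType → lam.ord.ToType} {r : lam.ord.ToType → Ordinal.{u}}
  {κ : Cardinal.{u}}

theorem zNext_iff (hc : ∀ p v, mP (cod p) (cod v) C ↔ c p = v)
    (hr2 : ∀ x γ, γ < κ.ord → (mP (cod x) γ.toZFSet R ↔ r x = γ)) {α β : Ordinal.{u}}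
    (hβ : β < κ.ord) :
    ZNext lam.ord.toZFSet (rel2 A1) (rel3 A2) (rel3 A3) (rel2 A4) C R α.toZFSet β.toZFSet ↔
      NextL A1 A2 A3 A4 c r α β := by
  unfold ZNext NextL
  simp only [bex_cod (lam := lam), ball_cod (lam := lam), ball_ord, toZFSet_mem_toZFSet_iff,
    zInG_iff hc hr2 hβ, not_lt]
  constructor
  · rintro ⟨h1, h2, h3⟩
    refine ⟨h1, h2, ?_⟩
    intro γ hγ h4 z h5
    exact h3 γ hγ h4 z ((zInG_iff hc hr2 (hγ.trans hβ) z).2 h5)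
  · rintro ⟨h1, h2, h3⟩
    refine ⟨h1, h2, ?_⟩
    intro γ hγ h4 z h5
    exact h3 γ hγ h4 z ((zInG_iff hc hr2 (hγ.trans hβ) z).1 h5)

theorem psi2_iff (t0 : lam.ord.ToType) {α β : Ordinal.{u}} (y : ZFSet.{u}) :
    (∃ C R, Psi2 lam.ord.toZFSet κ.ord.toZFSet (rel2 A1) (rel3 A2) (rel3 A3) (rel2 A4) (rel2 A5)
      (rel2 A6) (rel2 A7) (rel2 A8) (cod t0) {∅} ∅ α.toZFSet β.toZFSet y C R) ↔
    ∃ c r, ColL2 A1 A2 A3 A4 A5 A6 A7 A8 c r κ t0 α β y := by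
  have key : ∀ {C R : ZFSet.{u}} {c : lam.ord.ToType → lam.ord.ToType}
      {r : lam.ord.ToType → Ordinal.{u}} (hc : ∀ p v, mP (cod p) (cod v) C ↔ c p = v)
      (hr1 : ∀ x, r x < κ.ord)
      (hr2 : ∀ x γ, γ < κ.ord → (mP (cod x) γ.toZFSet R ↔ r x = γ)),
      Psi2 lam.ord.toZFSet κ.ord.toZFSet (rel2 A1) (rel3 A2) (rel3 A3) (rel2 A4) (rel2 A5)
      (rel2 A6) (rel2 A7) (rel2 A8) (cod t0) {∅} ∅ α.toZFSet β.toZFSet y C R ↔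
      ColL2 A1 A2 A3 A4 A5 A6 A7 A8 c r κ t0 α β y := by
    intro C R c r hc hr1 hr2
    unfold Psi2 ColL2
    rw [zCertC_iff hc, zCertR_iff hc hr1 hr2]
    have h1 : ∀ β' : Ordinal.{u}, (∃ g ∈ κ.ord.toZFSet, mP (cod t0) g R ∧ β'.toZFSet ∈ g) ↔
        β' < r t0 := by
      intro β'
      rw [bex_ord]
      constructor
      · rintro ⟨γ, h1, h2, h3⟩
        rw [(hr2 t0 γ h1).1 h2]
        exact toZFSet_mem_toZFSet_iff.1 h3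
      · intro h
        exact ⟨r t0, hr1 t0, (hr2 t0 _ (hr1 t0)).2 rfl, toZFSet_mem_toZFSet_iff.2 h⟩
    simp only [bex_ord (κ := κ.ord)] at h1 ⊢
    simp only [h1]
    constructor
    · rintro ⟨h2, h3, α', hα', β', hβ', h4, h5, h6, h7⟩
      rw [zNext_iff hc hr2 hα'] at h4
      rw [zNext_iff hc hr2 hβ'] at h5
      rw [zLex_iff hc hr2 hα' hβ'] at h7
      exact ⟨h2, h3, hr1, α', hα', β', hβ', h4, h5, h6, h7⟩
    · rintro ⟨h2, h3, _, α', hα', β', hβ', h4, h5, h6, h7⟩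
      rw [← zNext_iff hc hr2 hα'] at h4
      rw [← zNext_iff hc hr2 hβ'] at h5
      rw [← zLex_iff hc hr2 hα' hβ'] at h7
      exact ⟨h2, h3, α', hα', β', hβ', h4, h5, h6, h7⟩
  constructor
  · rintro ⟨C, R, h⟩
    obtain ⟨c, hc⟩ := exists_c h.1
    obtain ⟨r, hr1, hr2⟩ := exists_r (κ := κ) h.2.1.1 h.2.1.2.1
    exact ⟨c, r, (key hc hr1 hr2).1 h⟩
  · rintro ⟨c, r, h⟩
    refine ⟨rel2 (fun p v => c p = v), fnO r, (key (fun p v => mem_rel2) h.2.2.1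
      (fun x γ _ => mem_fnO)).2 h⟩

end eval

end Pool.Agent.W5h77.Sg2
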